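import Mathlib

open Polynomial

namespace Pool.Agent.Lib.MP_5a9afa_al

/-- A divisor of a product of powers of two primes is, up to a unit, such a product. -/
lemma dvd_pow_mul_pow {M : Type*} [CommMonoidWithZero M] [IsCancelMulZero M] {p q : M}
    (hp : Prime p) (hq : Prime q) (m n : ℕ) {g : M} (h : g ∣ p ^ m * q ^ n) :
    ∃ i ≤ m, ∃ j ≤ n, Associated g (p ^ i * q ^ j) := by
  induction m generalizing g with
  | zero =>
    rw [pow_zero, one_mul] at h
    obtain ⟨j, hjn, hj⟩ := (dvd_prime_pow hq n).1 h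
    exact ⟨0, le_rfl, j, hjn, by simpa using hj⟩
  | succ m ih =>
    by_cases hpg : p ∣ g
    · obtain ⟨g1, rfl⟩ := hpg
      have h1 : g1 ∣ p ^ m * q ^ n := by
        rw [pow_succ', mul_assoc] at h
        exact (mul_dvd_mul_iff_left hp.ne_zero).1 h
      obtain ⟨i, him, j, hjn, hij⟩ := ih h1
      exact ⟨i + 1, Nat.succ_le_succ him, j, hjn, by
        rw [pow_succ', mul_assoc]; exact hij.mul_left _⟩
    · obtain ⟨h', hh'⟩ := h
      have h2 : p ^ (m + 1) ∣ h' :=
        hp.pow_dvd_of_dvd_mul_left (m + 1) hpg (hh' ▸ Dvd.intro _ rfl)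
      obtain ⟨h'', rfl⟩ := h2
      have h3 : q ^ n = g * h'' := by
        apply mul_left_cancel₀ (pow_ne_zero (m + 1) hp.ne_zero)
        rw [hh']
        ac_rfl
      obtain ⟨j, hjn, hj⟩ := (dvd_prime_pow hq n).1 (Dvd.intro _ h3.symm)
      exact ⟨0, Nat.zero_le _, j, hjn, by simpa using hj⟩

section Defs

variable {F : Type*} [Field F]

/-- The polynomials over `F` with coefficients in the subring `R`. -/
def polys (R : Subring F) : Subring F[X] where
  carrier := {f | ∀ i, f.coeff i ∈ R}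
  mul_mem' := by
    intro f g hf hg i
    rw [coeff_mul]
    exact R.sum_mem fun x _ => R.mul_mem (hf _) (hg _)
  one_mem' := by
    intro i
    rw [coeff_one]
    split_ifs
    · exact R.one_mem
    · exact R.zero_mem
  add_mem' := by
    intro f g hf hg i
    rw [coeff_add]
    exact R.add_mem (hf i) (hg i)
  zero_mem' := by
    intro i
    rw [coeff_zero]
    exact R.zero_mem
  neg_mem' := by
    intro f hf i
    rw [coeff_neg]
    exact R.neg_mem (hf i)

lemma mem_polys {R : Subring F} {f : F[X]} : f ∈ polys R ↔ ∀ i, f.coeff i ∈ R := Iff.rfl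

lemma C_mem_polys {R : Subring F} {a : F} : C a ∈ polys R ↔ a ∈ R := by
  constructor
  · intro h
    simpa using h 0
  · intro h i
    rw [coeff_C]
    split_ifs
    · exact h
    · exact R.zero_mem

lemma X_mem_polys {R : Subring F} : (X : F[X]) ∈ polys R := by
  intro i
  rw [coeff_X]
  split_ifs
  · exact R.one_mem
  · exact R.zero_mem

variable {K : Type*} [Field K] [Algebra F K]

/-- The subring of `K` of all `f(t) / w(t)^m` with `f` a polynomial with coefficients in `R`. -/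
def stepRing (R : Subring F) (t : K) (w : F[X]) (hw : w ∈ polys R)  : Subring K where
  carrier := {x | ∃ f ∈ polys R, ∃ m : ℕ, x * (aeval t w) ^ m = aeval t f}
  mul_mem' := by
    rintro x y ⟨f, hf, m, hm⟩ ⟨g, hg, n, hn⟩
    refine ⟨f * g, (polys R).mul_mem hf hg, m + n, ?_⟩
    rw [map_mul, ← hm, ← hn, pow_add]
    ring
  one_mem' := ⟨1, (polys R).one_mem, 0, by simp⟩
  add_mem' := by
    rintro x y ⟨f, hf, m, hm⟩ ⟨g, hg, n, hn⟩
    refine ⟨f * w ^ n + g * w ^ m, (polys R).add_mem ((polys R).mul_mem hf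
      ((polys R).pow_mem hw n)) ((polys R).mul_mem hg ((polys R).pow_mem hw m)), m + n, ?_⟩
    rw [map_add, map_mul, map_mul, ← hm, ← hn, map_pow, map_pow, pow_add]
    ring
  zero_mem' := ⟨0, (polys R).zero_mem, 0, by simp⟩
  neg_mem' := by
    rintro x ⟨f, hf, m, hm⟩
    exact ⟨-f, (polys R).neg_mem hf, m, by rw [map_neg, ← hm]; ring⟩

lemma mem_stepRing {R : Subring F} {t : K} {w : F[X]} {hw : w ∈ polys R} {x : K} :
    x ∈ stepRing R t w hw ↔ ∃ f ∈ polys R, ∃ m : ℕ, x * (aeval t w) ^ m = aeval t f := Iff.rfl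

end Defs

/-- The inductive invariant of the construction. -/
structure Good {K : Type*} [Field K] (a : K) (R : Subring K) : Prop where
  ne_zero : a ≠ 0
  a_mem : a ∈ R
  rat : ∀ n : ℕ, n ≠ 0 → ((n : K)⁻¹) ∈ R
  nonunit : a⁻¹ ∉ R
  noSol : ∀ n : ℕ, 2 ≤ n → ∀ u ∈ R, ∀ v ∈ R, u ≠ 0 → v ≠ 0 → u⁻¹ ∈ R → v⁻¹ ∈ R →
    a ^ n * u + v ≠ 1

section Step

variable {F : Type*} [Field F]

lemma coprime_pow {R : Subring F} {a b p q : F} (ha : a ∈ R) (hb : b ∈ R) (hp : p ∈ R) (hq : q ∈ R)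
    (h : p * a + q * b = 1) (m n : ℕ) : ∃ P ∈ R, ∃ Q ∈ R, P * a ^ m + Q * b ^ n = 1 := by
  have h1 : IsCoprime (⟨a, ha⟩ : R) ⟨b, hb⟩ := ⟨⟨p, hp⟩, ⟨q, hq⟩, Subtype.ext h⟩
  obtain ⟨P, Q, hPQ⟩ := h1.pow (m := m) (n := n)
  exact ⟨P, P.2, Q, Q.2, congrArg Subtype.val hPQ⟩

lemma mem_of_mul_pow_mem {R : Subring F} {a b p q : F} (ha : a ∈ R) (hb : b ∈ R) (hp : p ∈ R)
    (hq : q ∈ R) (h : p * a + q * b = 1) {x : F} (m n : ℕ) (h1 : x * a ^ m ∈ R)
    (h2 : x * b ^ n ∈ R) : x ∈ R := by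
  obtain ⟨P, hP, Q, hQ, hPQ⟩ := coprime_pow ha hb hp hq h m n
  have : x = P * (x * a ^ m) + Q * (x * b ^ n) := by
    linear_combination (-x) * hPQ
  rw [this]
  exact R.add_mem (R.mul_mem hP h1) (R.mul_mem hQ h2)

/-- `a + b X`. -/
noncomputable def lin (a b : F) : F[X] := C a + C b * X

lemma lin_mem {R : Subring F} {a b : F} (ha : a ∈ R) (hb : b ∈ R) : lin a b ∈ polys R :=
  (polys R).add_mem (C_mem_polys.2 ha) ((polys R).mul_mem (C_mem_polys.2 hb) X_mem_polys)

lemma lin_eq {a b : F} (hb : b ≠ 0) : lin a b = C b * (X + C (a / b)) := by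
  rw [lin, mul_add, ← C_mul, mul_div_cancel₀ _ hb, add_comm]

lemma lin_pow {a b : F} (hb : b ≠ 0) (n : ℕ) : lin a b ^ n = C (b ^ n) * (X + C (a / b)) ^ n := by
  rw [lin_eq hb, mul_pow, C_pow]

lemma coeff_lin_pow_self {a b : F} (hb : b ≠ 0) (n : ℕ) : (lin a b ^ n).coeff n = b ^ n := by
  rw [lin_pow hb, coeff_C_mul, coeff_X_add_C_pow]
  simp

lemma coeff_lin_pow_pred {a b : F} (hb : b ≠ 0) (n : ℕ) :
    (lin a b ^ (n + 1)).coeff n = (n + 1) * a * b ^ n := by
  rw [lin_pow hb, coeff_C_mul, coeff_X_add_C_pow]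
  simp
  field_simp
  ring

lemma coeff_lin_pow_of_lt {a b : F} (hb : b ≠ 0) {n k : ℕ} (h : n < k) :
    (lin a b ^ n).coeff k = 0 := by
  rw [lin_pow hb, coeff_C_mul, coeff_X_add_C_pow, Nat.choose_eq_zero_of_lt h]
  simp

lemma coeff_lin_pow_zero {a b : F} (hb : b ≠ 0) (n : ℕ) : (lin a b ^ n).coeff 0 = a ^ n := by
  rw [lin_pow hb, coeff_C_mul, coeff_X_add_C_pow]
  simp
  rw [← mul_pow, mul_div_cancel₀ _ hb]

lemma prime_lin {a b : F} (hb : b ≠ 0) : Prime (lin a b) := by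
  rw [lin_eq hb]
  have h1 : Prime (X + C (a / b)) := by
    have := prime_X_sub_C (-(a / b))
    rwa [map_neg, sub_neg_eq_add] at this
  have h2 : IsUnit (C b : F[X]) := isUnit_C.2 (isUnit_iff_ne_zero.2 hb)
  exact ((associated_unit_mul_left _ _ h2).symm).prime h1

variable {K : Type*} [Field K] [Algebra F K]

/-- Units of the step ring. -/
lemma unit_form {R : Subring F} {a b p q : F} (ha : a ∈ R) (hb : b ∈ R) (hp : p ∈ R)
    (hq : q ∈ R) (h : p * a + q * b = 1) (hb0 : b ≠ 0) {t : K}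
    (ht : Transcendental F t) (hw : X * lin a b ∈ polys R) {y : K} (hy0 : y ≠ 0)
    (hy : y ∈ stepRing R t (X * lin a b) hw) (hy' : y⁻¹ ∈ stepRing R t (X * lin a b) hw) :
    ∃ β ∈ R, β ≠ 0 ∧ β⁻¹ ∈ R ∧ ∃ k l m : ℕ,
      y * (aeval t (X * lin a b)) ^ m = aeval t (C β * (X ^ k * lin a b ^ l)) := by
  obtain ⟨g, hg, m, hm⟩ := hy
  obtain ⟨g', hg', m', hm'⟩ := hy'
  have hinj : Function.Injective (aeval t : F[X] →ₐ[F] K) :=
    transcendental_iff_injective.1 ht
  have hgg : g * g' = X ^ (m + m') * lin a b ^ (m + m') := by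
    apply hinj
    rw [map_mul, ← hm, ← hm', ← mul_pow, map_pow, pow_add]
    field_simp
  have hXp : Prime (X : F[X]) := prime_X
  have hlp := prime_lin (a := a) hb0
  have hX0 : (X : F[X]) ≠ 0 := X_ne_zero
  obtain ⟨k, hk, l, hl, u, hu⟩ := dvd_pow_mul_pow hXp hlp (m + m') (m + m') (Dvd.intro _ hgg)
  obtain ⟨c, hc, hcu⟩ := Polynomial.isUnit_iff.1 u.isUnit
  have hc0 : c ≠ 0 := hc.ne_zero
  have hgform : g = C c⁻¹ * (X ^ k * lin a b ^ l) := by
    rw [← hu, ← hcu, mul_comm g, ← mul_assoc, ← C_mul, inv_mul_cancel₀ hc0, C_1, one_mul]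
  have hg'form : g' = C c * (X ^ (m + m' - k) * lin a b ^ (m + m' - l)) := by
    have hg0 : g ≠ 0 := by
      rw [hgform]
      exact mul_ne_zero (C_ne_zero.2 (inv_ne_zero hc0))
        (mul_ne_zero (pow_ne_zero _ hX0) (pow_ne_zero _ hlp.ne_zero))
    apply mul_left_cancel₀ hg0
    rw [hgg, hgform]
    have e1 : (X : F[X]) ^ (m + m') = X ^ k * X ^ (m + m' - k) := by
      rw [← pow_add, Nat.add_sub_cancel' hk]
    have e2 : (lin a b) ^ (m + m') = lin a b ^ l * lin a b ^ (m + m' - l) := by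
      rw [← pow_add, Nat.add_sub_cancel' hl]
    have e3 : (C c⁻¹ : F[X]) * C c = 1 := by rw [← C_mul, inv_mul_cancel₀ hc0, C_1]
    rw [e1, e2]
    linear_combination (-(X ^ k * X ^ (m + m' - k) * (lin a b ^ l * lin a b ^ (m + m' - l)))) * e3
  have key : ∀ (β : F) (i j : ℕ), C β * (X ^ i * lin a b ^ j) ∈ polys R → β ∈ R := by
    intro β i j hmem
    have h1 := hmem i
    have h2 := hmem (j + i)
    rw [coeff_C_mul, mul_comm (X ^ i), coeff_mul_X_pow, coeff_lin_pow_self hb0] at h2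
    rw [coeff_C_mul, mul_comm (X ^ i)] at h1
    have h3 : (lin a b ^ j * X ^ i).coeff i = (lin a b ^ j).coeff 0 := by
      have := coeff_mul_X_pow (lin a b ^ j) i 0
      rwa [zero_add] at this
    rw [h3, coeff_lin_pow_zero hb0] at h1
    exact mem_of_mul_pow_mem ha hb hp hq h j j h1 h2
  refine ⟨c⁻¹, key _ k l (hgform ▸ hg), inv_ne_zero hc0, ?_, k, l, m, ?_⟩
  · rw [inv_inv]
    exact key _ _ _ (hg'form ▸ hg')
  · rw [hm, hgform]

lemma mem_of_algebraMap_mem {R : Subring F} {a b p q : F} (ha : a ∈ R) (hb : b ∈ R) (hp : p ∈ R)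
    (hq : q ∈ R) (h : p * a + q * b = 1) (hb0 : b ≠ 0) {t : K}
    (ht : Transcendental F t) (hw : X * lin a b ∈ polys R) {x : F}
    (hx : algebraMap F K x ∈ stepRing R t (X * lin a b) hw) : x ∈ R := by
  obtain ⟨f, hf, m, hm⟩ := hx
  have hinj : Function.Injective (aeval t : F[X] →ₐ[F] K) :=
    transcendental_iff_injective.1 ht
  have h1 : C x * (X * lin a b) ^ m = f := by
    apply hinj
    rw [map_mul, map_pow, aeval_C, hm]
  rw [mul_pow] at h1
  rw [← h1] at hf
  have h1 := hf m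
  have h2 := hf (m + m)
  rw [coeff_C_mul, mul_comm (X ^ m), coeff_mul_X_pow, coeff_lin_pow_self hb0] at h2
  rw [coeff_C_mul, mul_comm (X ^ m)] at h1
  have h3 : (lin a b ^ m * X ^ m).coeff m = (lin a b ^ m).coeff 0 := by
    have := coeff_mul_X_pow (lin a b ^ m) m 0
    rwa [zero_add] at this
  rw [h3, coeff_lin_pow_zero hb0] at h1
  exact mem_of_mul_pow_mem ha hb hp hq h m m h1 h2

lemma not_dvd_pow {R : Subring F} {a b p q : F} (ha : a ∈ R) (hb : b ∈ R) (hp : p ∈ R)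
    (hq : q ∈ R) (h : p * a + q * b = 1) (hna : a⁻¹ ∉ R) (m : ℕ) {y : F}
    (hy : y ∈ R) : b ^ m ≠ a * y := by
  intro hc
  obtain ⟨P, hP, Q, hQ, hPQ⟩ := coprime_pow ha hb hp hq h 1 m
  apply hna
  have h1 : a * (P + Q * y) = 1 := by
    rw [pow_one] at hPQ
    linear_combination hPQ - Q * hc
  have h2 : a⁻¹ = P + Q * y := (eq_inv_of_mul_eq_one_right h1).symm
  rw [h2]
  exact R.add_mem hP (R.mul_mem hQ hy)

lemma coeff_shift (f : F[X]) (k i : ℕ) : (X ^ k * f).coeff (i + k) = f.coeff i := by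
  rw [mul_comm, coeff_mul_X_pow]

lemma coeff_top {a b : F} (hb0 : b ≠ 0) {k l D : ℕ} (hD : k + l = D) :
    (X ^ k * lin a b ^ l).coeff D = b ^ l := by
  rw [← hD, add_comm k l, coeff_shift, coeff_lin_pow_self hb0]

lemma coeff_big {a b : F} (hb0 : b ≠ 0) {k l D : ℕ} (hD : k + l < D) :
    (X ^ k * lin a b ^ l).coeff D = 0 := by
  obtain ⟨e, rfl⟩ := Nat.exists_eq_add_of_lt hD
  have : k + l + e + 1 = (l + e + 1) + k := by ring
  rw [this, coeff_shift, coeff_lin_pow_of_lt hb0 (by omega)]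

lemma coeff_pred {a b : F} (hb0 : b ≠ 0) {k l D : ℕ} (hD : k + l = D + 1) :
    (X ^ k * lin a b ^ l).coeff D * b = l * a * b ^ l := by
  cases l with
  | zero =>
    have : k = D + 1 := by omega
    subst this
    rw [pow_zero, mul_one, coeff_X_pow, if_neg (by omega)]
    simp
  | succ l =>
    have : D = l + k := by omega
    subst this
    rw [coeff_shift, coeff_lin_pow_pred hb0]
    push_cast
    ring

/-- The key computation modulo `a` and `a ^ 2`. -/
lemma key_comp [CharZero F] {R : Subring F} {a b p q : F} (hgood : Good a R) (hb : b ∈ R)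
    (hp : p ∈ R) (hq : q ∈ R) (h : p * a + q * b = 1) (hb0 : b ≠ 0) {n : ℕ} (hn : 2 ≤ n)
    {β : F} (hβ0 : β ≠ 0) (hβ' : β⁻¹ ∈ R) {k l M : ℕ} {f : F[X]} (hf : f ∈ polys R)
    (heq : C β * (X ^ k * lin a b ^ l) + C (a ^ n) * f = X ^ M * lin a b ^ M) :
    k = M ∧ l = M := by
  obtain ⟨n, rfl⟩ := Nat.exists_eq_add_of_le hn
  have ha0 := hgood.ne_zero
  have ha := hgood.a_mem
  have nd := fun (m : ℕ) {y : F} (hy : y ∈ R) =>
    not_dvd_pow ha hb hp hq h hgood.nonunit m hy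
  have hkl : k + l = M + M := by
    rcases lt_trichotomy (k + l) (M + M) with hlt | he | hgt
    · exfalso
      have h1 := congrArg (fun g => g.coeff (M + M)) heq
      simp only [coeff_add, coeff_C_mul] at h1
      rw [coeff_big hb0 hlt, coeff_top hb0 rfl, mul_zero, zero_add] at h1
      refine nd M (y := a ^ (1 + n) * f.coeff (M + M)) (R.mul_mem (R.pow_mem ha _) (hf _)) ?_
      rw [← h1]
      ring
    · exact he
    · exfalso
      have h1 := congrArg (fun g => g.coeff (k + l)) heq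
      simp only [coeff_add, coeff_C_mul] at h1
      rw [coeff_big hb0 hgt, coeff_top hb0 rfl] at h1
      refine nd l (y := -(β⁻¹ * (a ^ (1 + n) * f.coeff (k + l)))) (R.neg_mem (R.mul_mem hβ'
        (R.mul_mem (R.pow_mem ha _) (hf _)))) ?_
      have h2 : β * b ^ l = -(a ^ (2 + n) * f.coeff (k + l)) := by linear_combination h1
      have h3 : b ^ l = β⁻¹ * (β * b ^ l) := by
        rw [← mul_assoc, inv_mul_cancel₀ hβ0, one_mul]
      rw [h3, h2]
      ring
  have hl : l = M := by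
    by_contra hne
    obtain ⟨D, hD⟩ : ∃ D, M + M = D + 1 := by
      refine Nat.exists_eq_succ_of_ne_zero ?_
      intro h0
      apply hne
      omega
    have h1 := congrArg (fun g => g.coeff (M + M)) heq
    simp only [coeff_add, coeff_C_mul] at h1
    rw [coeff_top hb0 rfl, coeff_top hb0 hkl] at h1
    have h2 := congrArg (fun g => g.coeff D * b) heq
    simp only [coeff_add, coeff_C_mul] at h2
    rw [coeff_pred hb0 hD, add_mul, mul_assoc β, coeff_pred hb0 (hkl.trans hD)] at h2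
    have h3 : ((M : F) - l) * b ^ M = a * (a ^ n * f.coeff D * b - l * (a ^ (1 + n) *
        f.coeff (M + M))) := by
      apply mul_left_cancel₀ ha0
      linear_combination (a * l) * h1 - h2
    have hd : ∃ d ∈ R, d * ((M : F) - l) = 1 := by
      rcases lt_or_gt_of_ne hne with hlt | hgt
      · obtain ⟨e, rfl⟩ := Nat.exists_eq_add_of_lt hlt
        refine ⟨((e + 1 : ℕ) : F)⁻¹, hgood.rat _ (Nat.succ_ne_zero e), ?_⟩
        have : ((e + 1 : ℕ) : F) ≠ 0 := Nat.cast_ne_zero.2 (Nat.succ_ne_zero e)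
        field_simp
        push_cast
        ring
      · obtain ⟨e, rfl⟩ := Nat.exists_eq_add_of_lt hgt
        refine ⟨-((e + 1 : ℕ) : F)⁻¹, R.neg_mem (hgood.rat _ (Nat.succ_ne_zero e)), ?_⟩
        have : ((e + 1 : ℕ) : F) ≠ 0 := Nat.cast_ne_zero.2 (Nat.succ_ne_zero e)
        field_simp
        push_cast
        ring
    obtain ⟨d, hdR, hd1⟩ := hd
    refine nd M (y := d * (a ^ n * f.coeff D * b - l * (a ^ (1 + n) *
        f.coeff (M + M)))) (R.mul_mem hdR (R.sub_mem (R.mul_mem (R.mul_mem (R.pow_mem ha _)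
          (hf _)) hb) (R.mul_mem (natCast_mem R l) (R.mul_mem (R.pow_mem ha _) (hf _))))) ?_
    linear_combination (-b ^ M) * hd1 + d * h3
  exact ⟨by omega, hl⟩

lemma step_ne_zero {R : Subring F} {a b p q : F} (hgood : Good a R)
    (hp : p ∈ R) (h : p * a + q * b = 1) {t : K} (ht : Transcendental F t) :
    aeval t (X * lin a b) ≠ 0 := by
  have hb0 : b ≠ 0 := by
    rintro rfl
    apply hgood.nonunit
    have : a⁻¹ = p := by
      have : p * a = 1 := by simpa using h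
      exact (eq_inv_of_mul_eq_one_left this).symm
    rw [this]
    exact hp
  have hinj : Function.Injective (aeval t : F[X] →ₐ[F] K) :=
    transcendental_iff_injective.1 ht
  have hTF : (X * lin a b : F[X]) ≠ 0 := mul_ne_zero X_ne_zero (prime_lin hb0).ne_zero
  intro h0
  exact hTF (hinj (by rw [h0, map_zero]))

lemma step_good [CharZero F] {R : Subring F} {a b p q : F} (hgood : Good a R) (hb : b ∈ R)
    (hp : p ∈ R) (hq : q ∈ R) (h : p * a + q * b = 1) {t : K} (ht : Transcendental F t)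
    (hw : X * lin a b ∈ polys R) :
    Good (algebraMap F K a) (stepRing R t (X * lin a b) hw) := by
  have ha0 := hgood.ne_zero
  have ha := hgood.a_mem
  have hb0 : b ≠ 0 := by
    rintro rfl
    apply hgood.nonunit
    have : a⁻¹ = p := by
      have : p * a = 1 := by simpa using h
      exact (eq_inv_of_mul_eq_one_left this).symm
    rw [this]
    exact hp
  have hinj : Function.Injective (aeval t : F[X] →ₐ[F] K) :=
    transcendental_iff_injective.1 ht
  have hTF : (X * lin a b : F[X]) ≠ 0 := mul_ne_zero X_ne_zero (prime_lin hb0).ne_zero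
  have hT : aeval t (X * lin a b) ≠ 0 := by
    intro h0
    exact hTF (hinj (by rw [h0, map_zero]))
  have hmem : ∀ x ∈ R, algebraMap F K x ∈ stepRing R t (X * lin a b) hw := fun x hx =>
    ⟨C x, C_mem_polys.2 hx, 0, by rw [pow_zero, mul_one, aeval_C]⟩
  refine ⟨by simpa using ha0, hmem _ ha, ?_, ?_, ?_⟩
  · intro n hn
    have := hmem _ (hgood.rat n hn)
    rwa [map_inv₀, map_natCast] at this
  · intro hc
    rw [← map_inv₀] at hc
    exact hgood.nonunit (mem_of_algebraMap_mem ha hb hp hq h hb0 ht hw hc)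
  · intro n hn u hu v hv hu0 hv0 hu' hv' heq
    obtain ⟨β, hβ, hβ0, hβ', k, l, m, hform⟩ :=
      unit_form ha hb hp hq h hb0 ht hw hv0 hv hv'
    obtain ⟨f, hf, m2, hm2⟩ := id hu
    have hid : C β * (X ^ (k + m2) * lin a b ^ (l + m2)) + C (a ^ n) * (f * (X * lin a b) ^ m)
        = X ^ (m + m2) * lin a b ^ (m + m2) := by
      apply hinj
      have e1 : aeval t (C β * (X ^ (k + m2) * lin a b ^ (l + m2))) =
          v * (aeval t (X * lin a b)) ^ (m + m2) := by
        rw [pow_add (aeval t (X * lin a b)), ← mul_assoc v, hform]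
        simp only [map_mul, map_pow, aeval_X, aeval_C, mul_pow, pow_add]
        ring
      have e2 : aeval t (C (a ^ n) * (f * (X * lin a b) ^ m)) =
          (algebraMap F K a) ^ n * u * (aeval t (X * lin a b)) ^ (m + m2) := by
        rw [map_mul, map_mul (aeval t) f, ← hm2, map_pow (aeval t) (X * lin a b), aeval_C,
          map_pow]
        ring
      have e3 : aeval t (X ^ (m + m2) * lin a b ^ (m + m2)) =
          (aeval t (X * lin a b)) ^ (m + m2) := by
        rw [← map_pow, mul_pow]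
      rw [map_add, e1, e2, e3]
      linear_combination (aeval t (X * lin a b)) ^ (m + m2) * heq
    obtain ⟨hk, hl⟩ := key_comp hgood hb hp hq h hb0 hn hβ0 hβ'
      ((polys R).mul_mem hf ((polys R).pow_mem hw m)) hid
    have hk' : k = m := by omega
    have hl' : l = m := by omega
    rw [hk', hl'] at hform
    have hv1 : v = algebraMap F K β := by
      apply mul_right_cancel₀ (pow_ne_zero m hT)
      rw [hform, map_mul, aeval_C, ← mul_pow, map_pow]
    have hu1 : u = algebraMap F K ((1 - β) / a ^ n) := by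
      have hA : algebraMap F K a ≠ 0 := by simpa using ha0
      rw [map_div₀, map_pow, map_sub, map_one, ← hv1]
      rw [eq_div_iff (pow_ne_zero n hA)]
      linear_combination heq
    rw [hu1] at hu hu'
    rw [← map_inv₀] at hu'
    have hx := mem_of_algebraMap_mem ha hb hp hq h hb0 ht hw hu
    have hx' := mem_of_algebraMap_mem ha hb hp hq h hb0 ht hw hu'
    have hx0 : (1 - β) / a ^ n ≠ 0 := by
      intro h0
      rw [h0, map_zero] at hu1
      exact hu0 hu1
    refine hgood.noSol n hn _ hx β hβ hx0 hβ0 hx' hβ' ?_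
    rw [mul_div_cancel₀ _ (pow_ne_zero n ha0)]
    ring

end Step

section Tower

/-- The task attached to `b`: if `b` is comaximal with `a` in `R`, then some unit `r` of `R`
makes `a + r b` a unit of `R`. -/
def Solved (a : ℂ) (R : Subring ℂ) (b : ℂ) : Prop :=
  ∃ r ∈ R, r ≠ 0 ∧ r⁻¹ ∈ R ∧ a + r * b ≠ 0 ∧ (a + r * b)⁻¹ ∈ R

lemma Solved.mono {a : ℂ} {R R' : Subring ℂ} (h : R ≤ R') {b : ℂ} (hs : Solved a R b) :
    Solved a R' b := by
  obtain ⟨r, hr, hr0, hr', h0, h'⟩ := hs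
  exact ⟨r, h hr, hr0, h hr', h0, h h'⟩

lemma exists_transcendental (F : Subfield ℂ) (hF : (F : Set ℂ).Countable) :
    ∃ t : ℂ, Transcendental F t := by
  have : Countable F := hF.to_subtype
  have h1 : Set.Countable {x : ℂ | IsAlgebraic F x} := Algebraic.countable F ℂ
  by_contra hcon
  push Not at hcon
  have h2 : {x : ℂ | IsAlgebraic F x} = Set.univ := by
    ext x
    simp only [Set.mem_ofPred_eq, Set.mem_univ, iff_true]
    exact not_not.1 (hcon x)
  rw [h2] at h1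
  exact not_countable_complex h1

lemma closure_countable (s : Set ℂ) (hs : s.Countable) :
    ((Subfield.closure s : Subfield ℂ) : Set ℂ).Countable := by
  have h := Subfield.cardinalMk_closure_le_max s
  rw [← Cardinal.le_aleph0_iff_set_countable] at hs ⊢
  exact h.trans (max_le hs le_rfl)

lemma single_step {a : ℂ} {R : Subring ℂ} (hc : (R : Set ℂ).Countable) (hgood : Good a R)
    {b p q : ℂ} (hb : b ∈ R) (hp : p ∈ R) (hq : q ∈ R) (h : p * a + q * b = 1) :
    ∃ R' : Subring ℂ, R ≤ R' ∧ (R' : Set ℂ).Countable ∧ Good a R' ∧ Solved a R' b := by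
  let F : Subfield ℂ := Subfield.closure (R : Set ℂ)
  have hRF : ∀ x ∈ R, x ∈ F := fun x hx => Subfield.subset_closure hx
  have hFc : (F : Set ℂ).Countable := closure_countable _ hc
  obtain ⟨t, ht⟩ := exists_transcendental F hFc
  let RF : Subring F := R.comap F.subtype
  have hmemRF : ∀ x : F, x ∈ RF ↔ (x : ℂ) ∈ R := fun x => Iff.rfl
  let a' : F := ⟨a, hRF a hgood.a_mem⟩
  let b' : F := ⟨b, hRF b hb⟩
  let p' : F := ⟨p, hRF p hp⟩
  let q' : F := ⟨q, hRF q hq⟩
  have hgood' : Good a' RF := by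
    refine ⟨?_, hgood.a_mem, ?_, ?_, ?_⟩
    · intro h0
      exact hgood.ne_zero (congrArg Subtype.val h0)
    · intro n hn
      rw [hmemRF]
      simpa using hgood.rat n hn
    · intro hc
      exact hgood.nonunit hc
    · intro n hn u hu v hv hu0 hv0 hu' hv' heq
      refine hgood.noSol n hn u hu v hv ?_ ?_ hu' hv' (congrArg Subtype.val heq)
      · intro h0
        exact hu0 (Subtype.ext h0)
      · intro h0
        exact hv0 (Subtype.ext h0)
  have h' : p' * a' + q' * b' = 1 := Subtype.ext h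
  have hw : X * lin a' b' ∈ polys RF :=
    (polys RF).mul_mem X_mem_polys (lin_mem hgood.a_mem hb)
  have hS := step_good hgood' (b := b') hb (p := p') (q := q') hp hq h' ht hw
  refine ⟨stepRing RF t (X * lin a' b') hw, ?_, ?_, hS, ?_⟩
  · intro x hx
    exact ⟨C (⟨x, hRF x hx⟩ : F), C_mem_polys.2 hx, 0, by rw [pow_zero, mul_one, aeval_C]; rfl⟩
  · have : Countable F := hFc.to_subtype
    have : Countable F[X] := by
      rw [← Cardinal.mk_le_aleph0_iff]
      exact Polynomial.cardinalMk_le_max.trans (max_le (Cardinal.mk_le_aleph0_iff.2 inferInstance)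
        le_rfl)
    have hsub : ((stepRing RF t (X * lin a' b') hw : Subring ℂ) : Set ℂ) ⊆
        Set.range (fun x : F[X] × ℕ => aeval t x.1 / (aeval t (X * lin a' b')) ^ x.2) := by
      rintro x ⟨f, _, m, hm⟩
      refine ⟨(f, m), ?_⟩
      have hT := step_ne_zero hgood' (b := b') (p := p') (q := q') hp h' ht
      simp only
      rw [← hm, mul_div_cancel_right₀ _ (pow_ne_zero m hT)]
    exact (Set.countable_range _).mono hsub
  · have hT := step_ne_zero hgood' (b := b') (p := p') (q := q') hp h' ht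
    have hTe : aeval t (X * lin a' b') = t * (a + t * b) := by
      rw [map_mul, aeval_X, lin, map_add, map_mul, aeval_X, aeval_C, aeval_C]
      show t * (a + b * t) = t * (a + t * b)
      ring
    rw [hTe] at hT
    obtain ⟨ht0, hs0⟩ := mul_ne_zero_iff.1 hT
    refine ⟨t, ⟨X, X_mem_polys, 0, by simp⟩, ht0,
      ⟨lin a' b', lin_mem hgood.a_mem hb, 1, ?_⟩, hs0, ⟨X, X_mem_polys, 1, ?_⟩⟩
    · rw [pow_one, map_mul, aeval_X, ← mul_assoc, inv_mul_cancel₀ ht0, one_mul]
    · rw [pow_one, hTe, aeval_X, mul_comm t (a + t * b), ← mul_assoc, inv_mul_cancel₀ hs0,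
        one_mul]

lemma base : ∃ (a : ℂ) (R : Subring ℂ), (R : Set ℂ).Countable ∧ Good a R := by
  obtain ⟨a, ha⟩ : ∃ a : ℂ, Transcendental ℚ a := by
    by_contra hcon
    push Not at hcon
    have h1 : Set.Countable {x : ℂ | IsAlgebraic ℚ x} := Algebraic.countable ℚ ℂ
    have h2 : {x : ℂ | IsAlgebraic ℚ x} = Set.univ := by
      ext x
      simp only [Set.mem_ofPred_eq, Set.mem_univ, iff_true]
      exact not_not.1 (hcon x)
    rw [h2] at h1
    exact not_countable_complex h1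
  have hinj : Function.Injective (aeval a : ℚ[X] →ₐ[ℚ] ℂ) :=
    transcendental_iff_injective.1 ha
  have ha0 : a ≠ 0 := by
    rintro rfl
    have := hinj (a₁ := X) (a₂ := 0) (by simp)
    exact X_ne_zero this
  have hunit : ∀ f g : ℚ[X], aeval a f ≠ 0 → (aeval a f)⁻¹ = aeval a g → ∃ c : ℚ, f = C c := by
    intro f g hf0 hfg
    have : f * g = 1 := by
      apply hinj
      rw [map_mul, ← hfg, mul_inv_cancel₀ hf0, map_one]
    obtain ⟨c, _, hc⟩ := Polynomial.isUnit_iff.1 (IsUnit.of_mul_eq_one _ this)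
    exact ⟨c, hc.symm⟩
  refine ⟨a, (aeval a : ℚ[X] →ₐ[ℚ] ℂ).toRingHom.range, ?_, ha0, ⟨X, by simp⟩, ?_, ?_, ?_⟩
  · have : Countable ℚ[X] := by
      rw [← Cardinal.mk_le_aleph0_iff]
      exact Polynomial.cardinalMk_le_max.trans (max_le (Cardinal.mk_le_aleph0_iff.2 inferInstance)
        le_rfl)
    exact Set.countable_range _
  · intro n _
    exact ⟨C ((n : ℚ)⁻¹), by simp⟩
  · rintro ⟨f, hf⟩
    obtain ⟨c, hc⟩ := hunit X f (by simpa using ha0) (by simpa using hf.symm)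
    have := congrArg (fun g => g.coeff 1) hc
    simp at this
  · rintro n hn _ ⟨f, rfl⟩ _ ⟨g, rfl⟩ hu0 hv0 ⟨f', hf'⟩ ⟨g', hg'⟩ heq
    obtain ⟨c, rfl⟩ := hunit f f' hu0 hf'.symm
    obtain ⟨d, rfl⟩ := hunit g g' hv0 hg'.symm
    have h1 : X ^ n * C c + C d = 1 := by
      apply hinj
      rw [map_add, map_mul, map_pow, aeval_X, map_one]
      exact heq
    have h2 := congrArg (fun g => g.coeff n) h1
    simp only [coeff_add, mul_comm _ (C c), coeff_C_mul, coeff_X_pow, coeff_C, coeff_one] at h2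
    have hn0 : n ≠ 0 := by omega
    have hc : c = 0 := by simpa [hn0] using h2
    apply hu0
    rw [hc]
    simp

lemma chain_good {a : ℂ} {G : ℕ → Subring ℂ} (hmono : Monotone G)
    (hc : ∀ n, (G n : Set ℂ).Countable) (hg : ∀ n, Good a (G n)) :
    ((⨆ n, G n : Subring ℂ) : Set ℂ).Countable ∧ Good a (⨆ n, G n) := by
  have hdir : Directed (· ≤ ·) G := hmono.directed_le
  have hmem : ∀ x, x ∈ (⨆ n, G n) ↔ ∃ n, x ∈ G n := fun x => Subring.mem_iSup_of_directed hdir
  refine ⟨?_, ?_⟩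
  · rw [Subring.coe_iSup_of_directed hdir]
    exact Set.countable_iUnion hc
  · refine ⟨(hg 0).ne_zero, (hmem _).2 ⟨0, (hg 0).a_mem⟩, fun n hn => (hmem _).2 ⟨0, (hg 0).rat n hn⟩,
      ?_, ?_⟩
    · intro h
      obtain ⟨n, hn⟩ := (hmem _).1 h
      exact (hg n).nonunit hn
    · intro n hn u hu v hv hu0 hv0 hu' hv' heq
      obtain ⟨n1, h1⟩ := (hmem _).1 hu
      obtain ⟨n2, h2⟩ := (hmem _).1 hv
      obtain ⟨n3, h3⟩ := (hmem _).1 hu'
      obtain ⟨n4, h4⟩ := (hmem _).1 hv'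
      let N := max (max n1 n2) (max n3 n4)
      refine (hg N).noSol n hn u (hmono ?_ h1) v (hmono ?_ h2) hu0 hv0 (hmono ?_ h3) (hmono ?_ h4)
        heq
      · exact (le_max_left _ _).trans (le_max_left _ _)
      · exact (le_max_right _ _).trans (le_max_left _ _)
      · exact (le_max_left _ _).trans (le_max_right _ _)
      · exact (le_max_right _ _).trans (le_max_right _ _)

lemma stage {a : ℂ} {R : Subring ℂ} (hc : (R : Set ℂ).Countable) (hgood : Good a R) :
    ∃ R' : Subring ℂ, R ≤ R' ∧ (R' : Set ℂ).Countable ∧ Good a R' ∧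
      ∀ b ∈ R, (∃ p ∈ R, ∃ q ∈ R, p * a + q * b = 1) → Solved a R' b := by
  obtain ⟨e, he⟩ : ∃ e : ℕ → ℂ, (R : Set ℂ) ⊆ Set.range e := by
    obtain ⟨e, he⟩ := hc.exists_eq_range ⟨0, R.zero_mem⟩
    exact ⟨e, he.le⟩
  have hstep : ∀ (S : {S : Subring ℂ // (S : Set ℂ).Countable ∧ Good a S}) (b : ℂ),
      ∃ S' : {S : Subring ℂ // (S : Set ℂ).Countable ∧ Good a S}, S.1 ≤ S'.1 ∧
        (b ∈ S.1 → (∃ p ∈ S.1, ∃ q ∈ S.1, p * a + q * b = 1) → Solved a S'.1 b) := by
    rintro ⟨S, hSc, hSg⟩ b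
    by_cases hb : b ∈ S ∧ (∃ p ∈ S, ∃ q ∈ S, p * a + q * b = 1)
    · obtain ⟨hb, p, hp, q, hq, h⟩ := hb
      obtain ⟨S', h1, h2, h3, h4⟩ := single_step hSc hSg hb hp hq h
      exact ⟨⟨S', h2, h3⟩, h1, fun _ _ => h4⟩
    · exact ⟨⟨S, hSc, hSg⟩, le_rfl, fun h1 h2 => absurd ⟨h1, h2⟩ hb⟩
  choose f hf1 hf2 using hstep
  let G : ℕ → {S : Subring ℂ // (S : Set ℂ).Countable ∧ Good a S} := fun n =>
    Nat.rec ⟨R, hc, hgood⟩ (fun k S => f S (e k)) n
  have hmono : Monotone (fun n => (G n).1) := monotone_nat_of_le_succ fun n => hf1 (G n) (e n)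
  obtain ⟨h1, h2⟩ := chain_good hmono (fun n => (G n).2.1) (fun n => (G n).2.2)
  have hle : ∀ n, (G n).1 ≤ ⨆ n, (G n).1 := fun n => le_iSup (fun n => (G n).1) n
  refine ⟨⨆ n, (G n).1, hle 0, h1, h2, ?_⟩
  rintro b hb ⟨p, hp, q, hq, h⟩
  obtain ⟨n, rfl⟩ := he hb
  have h0 : R ≤ (G n).1 := hmono (Nat.zero_le n)
  exact (hf2 (G n) (e n) (h0 hb) ⟨p, h0 hp, q, h0 hq, h⟩).mono (hle (n + 1))

lemma final : ∃ (a : ℂ) (R : Subring ℂ), Good a R ∧
    ∀ b ∈ R, (∃ p ∈ R, ∃ q ∈ R, p * a + q * b = 1) → Solved a R b := by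
  obtain ⟨a, R, hc, hgood⟩ := base
  have hstep : ∀ (S : {S : Subring ℂ // (S : Set ℂ).Countable ∧ Good a S}),
      ∃ S' : {S : Subring ℂ // (S : Set ℂ).Countable ∧ Good a S}, S.1 ≤ S'.1 ∧
        (∀ b ∈ S.1, (∃ p ∈ S.1, ∃ q ∈ S.1, p * a + q * b = 1) → Solved a S'.1 b) := by
    rintro ⟨S, hSc, hSg⟩
    obtain ⟨S', h1, h2, h3, h4⟩ := stage hSc hSg
    exact ⟨⟨S', h2, h3⟩, h1, h4⟩
  choose f hf1 hf2 using hstep
  let G : ℕ → {S : Subring ℂ // (S : Set ℂ).Countable ∧ Good a S} := fun n =>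
    Nat.rec ⟨R, hc, hgood⟩ (fun _ S => f S) n
  have hmono : Monotone (fun n => (G n).1) := monotone_nat_of_le_succ fun n => hf1 (G n)
  obtain ⟨h1, h2⟩ := chain_good hmono (fun n => (G n).2.1) (fun n => (G n).2.2)
  have hle : ∀ n, (G n).1 ≤ ⨆ n, (G n).1 := fun n => le_iSup (fun n => (G n).1) n
  have hmem : ∀ x, x ∈ (⨆ n, (G n).1) ↔ ∃ n, x ∈ (G n).1 := fun x =>
    Subring.mem_iSup_of_directed hmono.directed_le
  refine ⟨a, ⨆ n, (G n).1, h2, ?_⟩
  rintro b hb ⟨p, hp, q, hq, h⟩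
  obtain ⟨n1, h1⟩ := (hmem _).1 hb
  obtain ⟨n2, h2⟩ := (hmem _).1 hp
  obtain ⟨n3, h3⟩ := (hmem _).1 hq
  let N := max n1 (max n2 n3)
  have i1 : (G n1).1 ≤ (G N).1 := hmono (le_max_left _ _)
  have i2 : (G n2).1 ≤ (G N).1 := hmono ((le_max_left _ _).trans (le_max_right _ _))
  have i3 : (G n3).1 ≤ (G N).1 := hmono ((le_max_right _ _).trans (le_max_right _ _))
  exact (hf2 (G N) b (i1 h1) ⟨p, i2 h2, q, i3 h3, h⟩).mono (hle (N + 1))

end Tower

end Pool.Agent.Lib.MP_5a9afa_al
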